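import Pool.Agent.Helper80.Stack.Goals

/-!
MP_d6b153_co, packet CIRCUIT.
-/

set_option autoImplicit false

namespace Pool.Agent.Helper49.Stk

open Pool.Agent.Helper80.Stk
open Classical

/-- An even chain supported on a path is zero. -/
theorem path_zero {W : Type} [Fintype W] (l : List W) (C : W → W → ZMod 2) (hl : l.Nodup)
    (hs : ∀ u v, C u v = C v u) (he : ∀ u, (∑ v, C u v) = 0)
    (hp : ∀ u v, C u v ≠ 0 → pth l u v ≠ 0) : C = 0 := by
  induction l with
  | nil =>
    funext u v
    by_contra h
    exact hp u v h rfl
  | cons x l ih =>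
    cases l with
    | nil =>
      funext u v
      by_contra h
      exact hp u v h rfl
    | cons y l =>
      have hxl : x ∉ y :: l := (List.nodup_cons.1 hl).1
      have hxy : x ≠ y := fun h => hxl (by rw [h]; exact List.mem_cons_self)
      have h1 : ∀ v, v ≠ y → C x v = 0 := by
        intro v hv
        by_contra h
        have h2 := hp x v h
        rw [pth_cons, Pi.add_apply, Pi.add_apply, pth_zero_left v hxl, add_zero] at h2
        obtain ⟨_, ⟨_, h3⟩ | ⟨h3, _⟩⟩ := edg_ne h2
        · exact hv h3
        · exact hxy h3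
      have h2 : C x y = 0 := by
        rw [← he x]
        exact (Finset.sum_eq_single y (fun v _ hv => h1 v hv)
          (fun h => absurd (Finset.mem_univ _) h)).symm
      refine ih (List.nodup_cons.1 hl).2 ?_
      intro u v huv h3
      have h4 := hp u v huv
      rw [pth_cons, Pi.add_apply, Pi.add_apply, h3, add_zero] at h4
      obtain ⟨_, ⟨rfl, rfl⟩ | ⟨rfl, rfl⟩⟩ := edg_ne h4
      · exact huv h2
      · exact huv (by rw [hs]; exact h2)

theorem cyc_last {W : Type} (l : List W) (z x : W) (l' l'' : List W) (h1 : l = x :: l')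
    (h2 : l = l'' ++ [z]) : cyc l = pth l + edg z x := by
  have h3 : cyc l = pth (l ++ [x]) := by
    rw [h1, cyc_cons]
    rfl
  rw [h3, h2, List.append_assoc, List.singleton_append, pth_append, pth_pair]

theorem zero_or (C : ZMod 2) (h : C ≠ 0) : C = 1 := by
  rcases z2' C with h1 | h1
  · exact absurd h1 h
  · exact h1

/-- Packet CIRCUIT. -/
theorem pf_Circuit : StmtCircuit := by
  intro W _ l C hl hs hd he hp
  cases l with
  | nil =>
    left
    funext u v
    by_contra h
    exact hp u v h rfl
  | cons x l' =>
    obtain ⟨l'', z, hz⟩ : ∃ l'' z, x :: l' = l'' ++ [z] :=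
      ⟨_, _, (List.dropLast_append_getLast (List.cons_ne_nil x l')).symm⟩
    have hc := cyc_last (x :: l') z x l' l'' rfl hz
    -- if a chain vanishes on the last edge it vanishes
    have main : ∀ C' : W → W → ZMod 2, (∀ u v, C' u v = C' v u) → (∀ u, (∑ v, C' u v) = 0) →
        (∀ u v, C' u v ≠ 0 → cyc (x :: l') u v ≠ 0) → C' z x = 0 → C' = 0 := by
      intro C' hs' he' hp' h0
      refine path_zero (x :: l') C' hl hs' he' ?_
      intro u v huv h3
      have h4 := hp' u v huv
      rw [hc, Pi.add_apply, Pi.add_apply, h3, zero_add] at h4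
      obtain ⟨_, ⟨rfl, rfl⟩ | ⟨rfl, rfl⟩⟩ := edg_ne h4
      · exact huv h0
      · exact huv (by rw [hs']; exact h0)
    by_cases h0 : C z x = 0
    · left
      exact main C hs he hp h0
    · right
      have h1 : cyc (x :: l') z x = 1 := zero_or _ (hp z x h0)
      have h2 : C z x = 1 := zero_or _ h0
      have h3 := main (C + cyc (x :: l')) ?_ ?_ ?_ ?_
      · funext u v
        have h4 := congrFun (congrFun h3 u) v
        simp only [Pi.add_apply, Pi.zero_apply] at h4
        exact CharTwo.add_eq_zero.1 h4
      · intro u v
        simp only [Pi.add_apply]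
        rw [hs, cyc_symm]
      · intro u
        simp only [Pi.add_apply, Finset.sum_add_distrib]
        rw [he, cyc_sum, add_zero]
      · intro u v huv h4
        simp only [Pi.add_apply] at huv
        rw [h4, add_zero] at huv
        exact hp u v huv h4
      · simp only [Pi.add_apply]
        rw [h1, h2]
        exact z2 1

end Pool.Agent.Helper49.Stk
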