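import Pool.Agent.Helper80.Stack.Goals

/-!
MP_d6b153_co, packet CYC.
-/

set_option autoImplicit false

namespace Pool.Agent.Helper49.Stk

open Pool.Agent.Helper80.Stk
open Classical

/-- The cyclic successor. -/
theorem exists_next {V D K : Type} [Fintype D] [LinearOrder K] (o : D → V) (κ : D → K) (d : D) :
    ∃ e, o e = o d ∧ ((κ d < κ e ∧ ∀ d', o d' = o d → κ d < κ d' → κ e ≤ κ d') ∨
      ((∀ d', o d' = o d → κ d' ≤ κ d) ∧ ∀ d', o d' = o d → κ e ≤ κ d')) := by
  by_cases h : ∃ d', o d' = o d ∧ κ d < κ d'
  · obtain ⟨e, he, hm⟩ := Finset.exists_min_image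
      (Finset.univ.filter fun d' => o d' = o d ∧ κ d < κ d') κ (by
        obtain ⟨d', hd'⟩ := h
        exact ⟨d', by simpa using hd'⟩)
    rw [Finset.mem_filter] at he
    refine ⟨e, he.2.1, Or.inl ⟨he.2.2, fun d' h1 h2 => hm d' ?_⟩⟩
    rw [Finset.mem_filter]
    exact ⟨Finset.mem_univ _, h1, h2⟩
  · obtain ⟨e, he, hm⟩ := Finset.exists_min_image
      (Finset.univ.filter fun d' => o d' = o d) κ ⟨d, by simp⟩
    rw [Finset.mem_filter] at he
    refine ⟨e, he.2, Or.inr ⟨fun d' h1 => ?_, fun d' h1 => hm d' ?_⟩⟩
    · exact not_lt.1 fun h2 => h ⟨d', h1, h2⟩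
    · rw [Finset.mem_filter]
      exact ⟨Finset.mem_univ _, h1⟩

/-- Packet CYC. -/
theorem pf_Cyc : StmtCyc := by
  intro V D K _ _ o κ hκ
  choose nx ho hnx using exists_next o κ
  have hinj : Function.Injective nx := by
    intro d d' hdd
    have hod : o d = o d' := by rw [← ho d, ← ho d', hdd]
    apply hκ d d' hod
    rcases hnx d with ⟨h1, h2⟩ | ⟨h1, h2⟩ <;> rcases hnx d' with ⟨h3, h4⟩ | ⟨h3, h4⟩
    · apply le_antisymm
      · by_contra hc
        rw [not_le] at hc
        have := h4 d hod hc
        rw [← hdd] at this
        exact absurd h1 (not_lt.2 this)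
      · by_contra hc
        rw [not_le] at hc
        have := h2 d' hod.symm hc
        rw [hdd] at this
        exact absurd h3 (not_lt.2 this)
    · have := h4 d hod
      rw [← hdd] at this
      exact absurd h1 (not_lt.2 this)
    · have := h2 d' hod.symm
      rw [hdd] at this
      exact absurd h3 (not_lt.2 this)
    · exact le_antisymm (h3 d hod) (h1 d' hod.symm)
  let σ : Equiv.Perm D := Equiv.ofBijective nx (Finite.injective_iff_bijective.1 hinj)
  have hσ : ∀ d, σ d = nx d := fun _ => rfl
  refine ⟨σ, fun d => ho d, ?_, ?_⟩
  · intro f hf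
    -- elements of a fibre have the value of the minimum
    have key : ∀ (n : ℕ) (d m : D), o d = o m → (∀ d', o d' = o m → κ m ≤ κ d') →
        (Finset.univ.filter fun d' => o d' = o d ∧ κ d' < κ d).card = n → (f d ↔ f m) := by
      intro n
      induction n using Nat.strong_induction_on with
      | _ n ih =>
        intro d m hdm hm hn
        by_cases hd : d = m
        · rw [hd]
        · have hlt : κ m < κ d := by
            rcases lt_or_eq_of_le (hm d hdm) with h1 | h1
            · exact h1
            · exact absurd (hκ m d hdm.symm h1).symm hd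
          obtain ⟨p, hp, hpm⟩ := Finset.exists_max_image
            (Finset.univ.filter fun d' => o d' = o d ∧ κ d' < κ d) κ
            ⟨m, by simpa using ⟨hdm.symm, hlt⟩⟩
          rw [Finset.mem_filter] at hp
          have hnp : nx p = d := by
            rcases hnx p with ⟨h1, h2⟩ | ⟨h1, h2⟩
            · have h3 := h2 d hp.2.1.symm hp.2.2
              rcases lt_or_eq_of_le h3 with h4 | h4
              · have := hpm (nx p) (by
                  rw [Finset.mem_filter]
                  exact ⟨Finset.mem_univ _, (ho p).trans hp.2.1, h4⟩)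
                exact absurd h1 (not_lt.2 this)
              · exact hκ _ _ ((ho p).trans hp.2.1) h4
            · exact absurd hp.2.2 (not_lt.2 (h1 d hp.2.1.symm))
          have h5 : (Finset.univ.filter fun d' => o d' = o p ∧ κ d' < κ p).card < n := by
            rw [← hn]
            apply Finset.card_lt_card
            rw [Finset.ssubset_iff_of_subset]
            · refine ⟨p, ?_, ?_⟩
              · rw [Finset.mem_filter]
                exact ⟨Finset.mem_univ _, hp.2⟩
              · rw [Finset.mem_filter]
                rintro ⟨_, _, h6⟩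
                exact lt_irrefl _ h6
            · intro e he
              rw [Finset.mem_filter] at he ⊢
              exact ⟨Finset.mem_univ _, he.2.1.trans hp.2.1, he.2.2.trans hp.2.2⟩
          have h6 := ih _ h5 p m (hp.2.1.trans hdm) hm rfl
          rw [← h6, ← hf p, hσ, hnp]
    intro d d' hdd
    obtain ⟨m, hm, hmin⟩ := Finset.exists_min_image
      (Finset.univ.filter fun e => o e = o d) κ ⟨d, by simp⟩
    rw [Finset.mem_filter] at hm
    have hmin' : ∀ e, o e = o m → κ m ≤ κ e := by
      intro e he
      apply hmin
      rw [Finset.mem_filter]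
      exact ⟨Finset.mem_univ _, he.trans hm.2⟩
    rw [key _ d m hm.2.symm hmin' rfl, key _ d' m (hdd.symm.trans hm.2.symm) hmin' rfl]
  · intro c hc d
    rw [hσ]
    have e1 : c d = ∑ d', (if d' = d then c d' else 0) := by
      rw [Finset.sum_ite_eq' Finset.univ d c, if_pos (Finset.mem_univ _)]
    rcases hnx d with ⟨h1, h2⟩ | ⟨h1, h2⟩
    · conv_rhs => rw [e1]
      rw [← Finset.sum_add_distrib]
      apply Finset.sum_congr rfl
      intro d' _
      by_cases h3 : o d' = o d
      · by_cases h4 : d' = d
        · subst h4
          simp [h1]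
        · have h5 : κ d' < κ (nx d) ↔ κ d' < κ d := by
            constructor
            · intro h5
              rcases lt_trichotomy (κ d') (κ d) with h6 | h6 | h6
              · exact h6
              · exact absurd (hκ _ _ h3 h6) h4
              · exact absurd h5 (not_lt.2 (h2 d' h3 h6))
            · intro h5
              exact h5.trans h1
          simp [h3, h4, h5]
      · have h4 : d' ≠ d := fun h => h3 (by rw [h])
        simp [h3, h4]
    · have h3 : (∑ d', (if o d' = o d ∧ κ d' < κ (nx d) then c d' else 0)) = 0 := by
        apply Finset.sum_eq_zero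
        intro d' _
        rw [if_neg]
        rintro ⟨h4, h5⟩
        exact absurd h5 (not_lt.2 (h2 d' h4))
      rw [h3]
      conv_rhs => rw [e1]
      rw [← Finset.sum_add_distrib]
      refine (hc (o d)).symm.trans (Finset.sum_congr rfl ?_)
      intro d' _
      by_cases h4 : o d' = o d
      · by_cases h5 : d' = d
        · subst h5
          simp
        · have h6 : κ d' < κ d := by
            rcases lt_or_eq_of_le (h1 d' h4) with h6 | h6
            · exact h6
            · exact absurd (hκ _ _ h4 h6) h5
          simp [h4, h5, h6]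
      · have h5 : d' ≠ d := fun h => h4 (by rw [h])
        simp [h4, h5]

end Pool.Agent.Helper49.Stk
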