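import Pool.Agent.Helper80.Stack.Goals

/-!
MP_d6b153_co, packet TRIUNIQ (TriUniq and TriLink).
-/

set_option autoImplicit false

namespace Pool.Agent.Helper49.Stk

open Pool.Agent.Helper80.Stk
open Classical

/-- Membership in a chain with zero boundary propagates across an edge. -/
theorem mem_iff_of_bd {V D : Type} [Fintype D] {P : PMap V D} {u v : TW P} {t t' : D × Fin 3}
    (hne : t ≠ t') (huv : u ≠ v)
    (hE : ∀ s, (u ∈ triVt P s ∧ v ∈ triVt P s) ↔ (s = t ∨ s = t'))
    {R : Finset (D × Fin 3)} (hR : bd (triVt P) R = 0) : t ∈ R ↔ t' ∈ R := by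
  have h1 := congrFun (congrFun hR u) v
  rw [bd_eq_sum] at h1
  have h2 : (∑ s ∈ R, (if u ≠ v ∧ u ∈ triVt P s ∧ v ∈ triVt P s then (1 : ZMod 2) else 0)) =
      (if t ∈ R then 1 else 0) + (if t' ∈ R then 1 else 0) := by
    have h3 : ∀ s, (if u ≠ v ∧ u ∈ triVt P s ∧ v ∈ triVt P s then (1 : ZMod 2) else 0) =
        (if s = t then 1 else 0) + (if s = t' then 1 else 0) := by
      intro s
      by_cases h4 : s = t
      · subst h4
        rw [if_pos ⟨huv, (hE s).2 (Or.inl rfl)⟩, if_pos rfl, if_neg hne, add_zero]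
      · by_cases h5 : s = t'
        · subst h5
          rw [if_pos ⟨huv, (hE s).2 (Or.inr rfl)⟩, if_neg h4, if_pos rfl, zero_add]
        · rw [if_neg, if_neg h4, if_neg h5, add_zero]
          rintro ⟨_, h6⟩
          rcases (hE s).1 h6 with h7 | h7
          · exact h4 h7
          · exact h5 h7
    simp_rw [h3, Finset.sum_add_distrib, Finset.sum_ite_eq']
  replace h1 : (if t ∈ R then (1 : ZMod 2) else 0) + (if t' ∈ R then 1 else 0) = 0 := by
    rw [← h2]
    refine Eq.trans (Finset.sum_congr rfl fun s _ => ?_) h1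
    congr
  by_cases h5 : t ∈ R
  · by_cases h6 : t' ∈ R
    · exact ⟨fun _ => h6, fun _ => h5⟩
    · rw [if_pos h5, if_neg h6, add_zero] at h1
      exact absurd h1 one_ne_zero
  · by_cases h6 : t' ∈ R
    · rw [if_neg h5, if_pos h6, zero_add] at h1
      exact absurd h1 one_ne_zero
    · exact ⟨fun h => absurd h h5, fun h => absurd h h6⟩

/-- Packet TRIUNIQ, first part. -/
theorem pf_TriUniq (hE : StmtTriEdges) : StmtTriUniq := by
  intro V D _ P r j hj R hR
  obtain ⟨_, hE2, _⟩ := hE V D P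
  have hm : ∀ u v t t', TE P u v t t' → (t ∈ R ↔ t' ∈ R) := by
    intro u v t t' ht
    obtain ⟨h1, h2, h3⟩ := hE2 u v t t' ht
    exact mem_iff_of_bd h1 h2 h3 hR
  have hd : ∀ d, ((d, (0 : Fin 3)) ∈ R ↔ (d, (1 : Fin 3)) ∈ R) := fun d =>
    hm _ _ _ _ (TE.diag d)
  have hr : ∀ d, ((d, (1 : Fin 3)) ∈ R ↔ (d, (2 : Fin 3)) ∈ R) := fun d =>
    hm _ _ _ _ (TE.ring d)
  have hα : ∀ d, ((d, (0 : Fin 3)) ∈ R ↔ (P.α d, (0 : Fin 3)) ∈ R) := fun d =>
    hm _ _ _ _ (TE.main d)
  have hsp : ∀ d, ((d, (1 : Fin 3)) ∈ R ↔ (P.φ.symm d, (0 : Fin 3)) ∈ R) := fun d =>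
    hm _ _ _ _ (TE.spoke d)
  have hφ : ∀ d, ((P.φ d, (0 : Fin 3)) ∈ R ↔ (d, (0 : Fin 3)) ∈ R) := by
    intro d
    rw [hd, hsp, Equiv.symm_apply_apply]
  have hrot := P.rot (fun d => (d, (0 : Fin 3)) ∈ R) (by
    intro d
    show (P.φ (P.α d), (0 : Fin 3)) ∈ R ↔ (d, (0 : Fin 3)) ∈ R
    rw [hφ, ← hα])
  obtain ⟨d0, hd0⟩ := P.surj r
  have key : ∀ (n : ℕ) (d : D), j (P.o d) = n →
      ((d, (0 : Fin 3)) ∈ R ↔ (d0, (0 : Fin 3)) ∈ R) := by
    intro n
    induction n using Nat.strong_induction_on with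
    | _ n ih =>
      intro d hn
      by_cases hr : P.o d = r
      · exact hrot d d0 (hr.trans hd0.symm)
      · obtain ⟨d1, hd1, hlt⟩ := hj _ hr
        have h1 := ih _ (by rw [← hn]; exact hlt) (P.α d1) rfl
        have h2 : ((d, (0 : Fin 3)) ∈ R ↔ (d1, (0 : Fin 3)) ∈ R) := hrot d d1 hd1.symm
        rw [h2, hα, h1]
  have hall : ∀ (d : D) (i : Fin 3), ((d, i) ∈ R ↔ (d0, (0 : Fin 3)) ∈ R) := by
    intro d i
    have h1 := key _ d rfl
    fin_cases i
    · exact h1
    · exact (hd d).symm.trans h1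
    · exact (hr d).symm.trans ((hd d).symm.trans h1)
  by_cases h0 : (d0, (0 : Fin 3)) ∈ R
  · right
    rw [Finset.eq_univ_iff_forall]
    rintro ⟨d, i⟩
    exact (hall d i).2 h0
  · left
    rw [Finset.eq_empty_iff_forall_notMem]
    rintro ⟨d, i⟩ h1
    exact h0 ((hall d i).1 h1)

/-- Packet TRIUNIQ, second part. -/
theorem pf_TriLink (hE : StmtTriEdges) : StmtTriLink := by
  intro V D _ P v f hf t t' ht ht'
  obtain ⟨_, hE2, _⟩ := hE V D P
  have hm : ∀ u w t t', TE P u w t t' → (u = v ∨ w = v) → (f t ↔ f t') := by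
    intro u w t t' h h0
    obtain ⟨h1, h2, h3⟩ := hE2 u w t t' h
    have h4 := (h3 t).2 (Or.inl rfl)
    have h5 := (h3 t').2 (Or.inr rfl)
    rcases h0 with rfl | rfl
    · exact hf t t' h4.1 h5.1 ⟨w, h2.symm, h4.2, h5.2⟩
    · exact hf t t' h4.2 h5.2 ⟨u, h2, h4.1, h5.1⟩
  rcases v with w0 | d | F
  · -- a vertex of the map
    have hrot := P.rot (fun d => P.o d = w0 ∧ f (d, 0)) (by
      intro d
      show (P.o (P.φ (P.α d)) = w0 ∧ f (P.φ (P.α d), 0)) ↔ (P.o d = w0 ∧ f (d, 0))
      rw [P.oφ, P.αα]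
      refine and_congr_right fun hd => ?_
      have ho : P.o (P.φ (P.α d)) = w0 := by rw [P.oφ, P.αα, hd]
      have h1 : f (P.φ (P.α d), 0) ↔ f (P.φ (P.α d), 1) :=
        hm _ _ _ _ (TE.diag (P.φ (P.α d))) (Or.inl (by rw [ho]))
      have h2 : f (P.φ (P.α d), 1) ↔ f (P.φ.symm (P.φ (P.α d)), 0) :=
        hm _ _ _ _ (TE.spoke (P.φ (P.α d))) (Or.inl (by rw [ho]))
      have h3 : f (d, 0) ↔ f (P.α d, 0) := hm _ _ _ _ (TE.main d) (Or.inl (by rw [hd]))
      rw [h1, h2, Equiv.symm_apply_apply, h3])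
    have hrot' : ∀ d d', P.o d = w0 → P.o d' = w0 → (f (d, 0) ↔ f (d', 0)) := by
      intro d d' h1 h2
      have := hrot d d' (h1.trans h2.symm)
      simpa [h1, h2] using this
    have hex : ∀ s, (Sum.inl w0 : TW P) ∈ triVt P s → ∃ d, P.o d = w0 ∧ (f s ↔ f (d, 0)) := by
      rintro ⟨s, i⟩ hs
      fin_cases i
      · simp only [triVt] at hs
        simp only [Fin.zero_eta, if_true, Finset.mem_insert, Finset.mem_singleton,
          Sum.inl.injEq, reduceCtorEq, or_false] at hs
        rcases hs with hs | hs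
        · exact ⟨s, hs.symm, Iff.rfl⟩
        · exact ⟨P.α s, hs.symm, hm _ _ _ _ (TE.main s) (Or.inr (by rw [← hs]))⟩
      · simp only [triVt] at hs
        simp at hs
        exact ⟨s, hs.symm, (hm _ _ _ _ (TE.diag s) (Or.inl (by rw [← hs]))).symm⟩
      · simp only [triVt] at hs
        simp at hs
    obtain ⟨d, hd, h1⟩ := hex t ht
    obtain ⟨d', hd', h2⟩ := hex t' ht'
    rw [h1, h2]
    exact hrot' d d' hd hd'
  · -- a corner
    have hex : ∀ s, (Sum.inr (Sum.inl d) : TW P) ∈ triVt P s → (f s ↔ f (d, 2)) := by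
      have a1 : f (P.φ.symm d, 0) ↔ f (P.φ.symm d, 1) :=
        hm _ _ _ _ (TE.diag (P.φ.symm d)) (Or.inr (by rw [Equiv.apply_symm_apply]))
      have a2 : f (P.φ.symm d, 1) ↔ f (P.φ.symm d, 2) :=
        hm _ _ _ _ (TE.ring (P.φ.symm d)) (Or.inr (by rw [Equiv.apply_symm_apply]))
      have a3 : f (d, 2) ↔ f (P.φ.symm d, 2) := hm _ _ _ _ (TE.inner d) (Or.inl rfl)
      have a4 : f (d, 1) ↔ f (d, 2) := hm _ _ _ _ (TE.ring d) (Or.inl rfl)
      rintro ⟨s, i⟩ hs
      fin_cases i
      · simp only [triVt] at hs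
        simp at hs
        have : s = P.φ.symm d := by rw [hs, Equiv.symm_apply_apply]
        subst this
        exact a1.trans (a2.trans a3.symm)
      · simp only [triVt] at hs
        simp at hs
        rcases hs with hs | hs
        · have : s = P.φ.symm d := by rw [hs, Equiv.symm_apply_apply]
          subst this
          exact a2.trans a3.symm
        · subst hs
          exact a4
      · simp only [triVt] at hs
        simp at hs
        rcases hs with hs | hs
        · subst hs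
          exact Iff.rfl
        · have : s = P.φ.symm d := by rw [hs, Equiv.symm_apply_apply]
          subst this
          exact a3.symm
    rw [hex t ht, hex t' ht']
  · -- a face
    induction F using Quotient.inductionOn with
    | _ d =>
      have hin : ∀ s, P.φ.SameCycle d s → (f (P.φ s, 2) ↔ f (s, 2)) := by
        intro s hs
        have h1 := hm _ _ _ _ (TE.inner (P.φ s)) (Or.inr (by
          show (Sum.inr (Sum.inr (Quotient.mk _ (P.φ s))) : TW P) = Sum.inr (Sum.inr _)
          congr 2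
          apply Quotient.sound
          exact (Equiv.Perm.sameCycle_apply_right.2 hs).symm))
        rw [Equiv.symm_apply_apply] at h1
        exact h1
      have hz : ∀ k : ℤ, (f ((P.φ ^ k) d, 2) ↔ f (d, 2)) := by
        intro k
        induction k using Int.induction_on with
        | zero => simp
        | succ n ih =>
          have h1 := hin ((P.φ ^ (n : ℤ)) d) ⟨_, rfl⟩
          rw [add_comm, zpow_add, zpow_one, Equiv.Perm.mul_apply, h1, ih]
        | pred n ih =>
          have h1 := hin ((P.φ ^ (-(n : ℤ) - 1)) d) ⟨_, rfl⟩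
          rw [← h1, ← Equiv.Perm.mul_apply, ← zpow_one_add, add_sub_cancel, ih]
      have hex : ∀ s, (Sum.inr (Sum.inr (Quotient.mk _ d)) : TW P) ∈ triVt P s →
          (f s ↔ f (d, 2)) := by
        rintro ⟨s, i⟩ hs
        fin_cases i
        · simp only [triVt] at hs
          simp at hs
        · simp only [triVt] at hs
          simp at hs
        · simp only [triVt] at hs
          simp only [Fin.reduceFinMk, Fin.reduceEq, if_false, Finset.mem_insert,
            Finset.mem_singleton, reduceCtorEq, Sum.inr.injEq, false_or] at hs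
          obtain ⟨k, hk⟩ : P.φ.SameCycle d s := Quotient.exact hs
          have := hz k
          rw [hk] at this
          exact this
      rw [hex t ht, hex t' ht']

end Pool.Agent.Helper49.Stk
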